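import Pool.Agent.H84.Sym.Defs
import Pool.Agent.H84.Unc.N7
import Pool.Agent.H23.Unc.N3c

/-!
# SYM, module B1: approximate solutions on a box of Euclidean space
-/

set_option autoImplicit false

open MeasureTheory Set Filter Topology
open scoped ContDiff Pointwise

namespace Pool.Agent.H84.Sym

open Pool.Agent.H84 Pool.Agent.H84.Unc

/-- The box of half side `ρ`. -/
def BoxE {n : ℕ} (ρ : ℝ) : Set (EuclideanSpace ℝ (Fin n)) := {x | ∀ i, |x i| ≤ ρ}

namespace B1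

variable {n : ℕ}

/-- Box coordinates to scaled Euclidean coordinates. -/
noncomputable def TT (s : ℝ) (y : Fin n → ℝ) : EuclideanSpace ℝ (Fin n) := s • N8.zz y

/-- Scaled Euclidean coordinates to box coordinates. -/
noncomputable def SS (s : ℝ) (x : EuclideanSpace ℝ (Fin n)) : Fin n → ℝ :=
  s⁻¹ • (PiLp.continuousLinearEquiv 2 ℝ (fun _ : Fin n => ℝ)) x + fun _ => Real.pi / 2

theorem SS_apply (s : ℝ) (x : EuclideanSpace ℝ (Fin n)) (i : Fin n) :
    SS s x i = s⁻¹ * x i + Real.pi / 2 := rfl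

theorem TT_apply (s : ℝ) (y : Fin n → ℝ) (i : Fin n) : TT s y i = s * (y i - Real.pi / 2) := rfl

theorem SS_TT {s : ℝ} (hs : 0 < s) (y : Fin n → ℝ) : SS s (TT s y) = y := by
  ext i
  rw [SS_apply, TT_apply]
  field_simp
  ring

theorem TT_SS {s : ℝ} (hs : 0 < s) (x : EuclideanSpace ℝ (Fin n)) : TT s (SS s x) = x := by
  ext i
  rw [TT_apply, SS_apply]
  field_simp
  ring

theorem hasFDerivAt_TT (s : ℝ) (y : Fin n → ℝ) : HasFDerivAt (TT (n := n) s) (s • N7.LP n) y :=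
  (N8.hasFDerivAt_zz y).const_smul s

theorem contDiff_TT (s : ℝ) {m : WithTop ℕ∞} : ContDiff ℝ m (TT (n := n) s) := by
  have h : (TT (n := n) s) = (fun x => s • (PiLp.continuousLinearEquiv 2 ℝ
    (fun _ : Fin n => ℝ)).symm (x - fun _ => Real.pi / 2)) := rfl
  rw [h]
  fun_prop

theorem contDiff_SS (s : ℝ) {m : WithTop ℕ∞} : ContDiff ℝ m (SS (n := n) s) := by
  unfold SS
  fun_prop

theorem hasFDerivAt_SS (s : ℝ) (x : EuclideanSpace ℝ (Fin n)) :
    HasFDerivAt (SS (n := n) s) (s⁻¹ • ((PiLp.continuousLinearEquiv 2 ℝ (fun _ : Fin n => ℝ)) :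
      EuclideanSpace ℝ (Fin n) →L[ℝ] (Fin n → ℝ))) x := by
  have h := ((PiLp.continuousLinearEquiv 2 ℝ (fun _ : Fin n => ℝ)).hasFDerivAt
    (x := x)).const_smul s⁻¹
  exact h.add_const _

theorem D_SS {s : ℝ} {g : (Fin n → ℝ) → ℝ} {x : EuclideanSpace ℝ (Fin n)}
    (hg : DifferentiableAt ℝ g (SS s x)) (i : Fin n) :
    D (EuclideanSpace.basisFun (Fin n) ℝ i) (fun y => g (SS s y)) x = s⁻¹ * pd i g (SS s x) := by
  have h := (hg.hasFDerivAt).comp x (hasFDerivAt_SS s x)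
  unfold D pd
  rw [show (fun y => g (SS s y)) = g ∘ SS s from rfl, h.fderiv]
  simp only [ContinuousLinearMap.comp_apply, smul_apply, map_smul,
    smul_eq_mul, EuclideanSpace.basisFun_apply]
  congr 2

theorem DD_SS {s : ℝ} {g : (Fin n → ℝ) → ℝ} (hg : ContDiff ℝ 2 g) (i : Fin n)
    (x : EuclideanSpace ℝ (Fin n)) :
    D (EuclideanSpace.basisFun (Fin n) ℝ i)
      (D (EuclideanSpace.basisFun (Fin n) ℝ i) (fun y => g (SS s y))) x =
      s⁻¹ * (s⁻¹ * pd i (pd i g) (SS s x)) := by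
  have h1 : D (EuclideanSpace.basisFun (Fin n) ℝ i) (fun y => g (SS s y)) =
      fun x => (fun y => s⁻¹ * pd i g y) (SS s x) := by
    ext x
    exact D_SS (hg.differentiable (by norm_num) _) i
  have hgd : ContDiff ℝ 1 (pd i g) := by
    have := N3.pd_contDiff (m := 1) (f := g) (by exact_mod_cast hg) i
    exact_mod_cast this
  have h2 : DifferentiableAt ℝ (pd i g) (SS s x) := hgd.differentiable (by norm_num) _
  rw [h1, D_SS (g := fun y => s⁻¹ * pd i g y) (h2.const_mul _) i,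
    N3.pd_const_mul' _ h2]

theorem U_eq {s : ℝ} (hs : 0 < s) (U : EuclideanSpace ℝ (Fin n) → ℝ) :
    U = fun x => (fun y => U (TT s y)) (SS s x) := by
  ext x
  simp only [TT_SS hs]

theorem LO_SS {s : ℝ} (hs : 0 < s) {U : EuclideanSpace ℝ (Fin n) → ℝ} (hU : ContDiff ℝ 2 U)
    {g : (Fin n → ℝ) → ℝ} (hg : ContDiff ℝ 2 g) (x : EuclideanSpace ℝ (Fin n)) :
    LO (EuclideanSpace.basisFun (Fin n) ℝ) U (fun y => g (SS s y)) x =
      (s⁻¹) ^ 2 * LL (fun y => U (TT s y)) g (SS s x) := by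
  have hUT : ContDiff ℝ 2 (fun y => U (TT s y)) := hU.comp (contDiff_TT s)
  have h3 : ∀ i, D (EuclideanSpace.basisFun (Fin n) ℝ i) U x =
      s⁻¹ * pd i (fun y => U (TT s y)) (SS s x) := by
    intro i
    conv_lhs => rw [U_eq hs U]
    exact D_SS (hUT.differentiable (by norm_num) _) i
  unfold LO LL
  rw [mul_sub, Finset.mul_sum, Finset.mul_sum]
  congr 1
  · refine Finset.sum_congr rfl fun i _ => ?_
    rw [DD_SS hg]
    ring
  · refine Finset.sum_congr rfl fun i _ => ?_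
    rw [h3, D_SS (hg.differentiable (by norm_num) _)]
    ring

theorem norm_SS {s : ℝ} {g : (Fin n → ℝ) → ℝ} (hg : ContDiff ℝ 1 g)
    (x : EuclideanSpace ℝ (Fin n)) :
    ‖fderiv ℝ (fun y => g (SS s y)) x‖ ^ 2 = (s⁻¹) ^ 2 * gsq g (SS s x) := by
  rw [N8.norm_sq_dual]
  unfold gsq
  rw [Finset.mul_sum]
  refine Finset.sum_congr rfl fun i _ => ?_
  have := D_SS (s := s) (x := x) (hg.differentiable (by norm_num) _) i
  unfold D at this
  rw [EuclideanSpace.basisFun_apply] at this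
  rw [this]
  ring

theorem integral_box {s ρ : ℝ} (hs : 0 < s) (hsρ : s * (Real.pi / 2) = ρ)
    (F : EuclideanSpace ℝ (Fin n) → ℝ) :
    ∫ x in BoxE ρ, F x = s ^ n * ∫ y in QQ n, F (TT s y) := by
  have h1 : (BoxE ρ : Set (EuclideanSpace ℝ (Fin n))) = s • BoxE (Real.pi / 2) := by
    ext x
    rw [mem_smul_set_iff_inv_smul_mem₀ hs.ne']
    constructor
    · intro h i
      have := h i
      rw [PiLp.smul_apply, smul_eq_mul, abs_mul, abs_of_pos (inv_pos.2 hs), inv_mul_le_iff₀ hs,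
        hsρ]
      exact this
    · intro h i
      have := h i
      rw [PiLp.smul_apply, smul_eq_mul, abs_mul, abs_of_pos (inv_pos.2 hs), inv_mul_le_iff₀ hs,
        hsρ] at this
      exact this
  have h2 := Measure.setIntegral_comp_smul_of_pos (volume : Measure (EuclideanSpace ℝ (Fin n)))
    F (BoxE (Real.pi / 2)) hs
  rw [← h1, finrank_euclideanSpace, Fintype.card_fin, smul_eq_mul] at h2
  have h3 := N7.mp_zz.setIntegral_preimage_emb N7.me_zz
    (fun x : EuclideanSpace ℝ (Fin n) => F (s • x)) (BoxE (Real.pi / 2))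
  have h4 : (N8.zz (n := n)) ⁻¹' (BoxE (Real.pi / 2)) = QQ n := by
    ext y
    change (∀ i, |N8.zz y i| ≤ Real.pi / 2) ↔ _
    constructor
    · intro h
      refine ⟨fun i => ?_, fun i => ?_⟩
      · have := (abs_le.1 (h i)).1
        simp only [N8.zz, zc] at this
        simp only [Pi.zero_apply]
        linarith
      · have := (abs_le.1 (h i)).2
        simp only [N8.zz, zc] at this
        linarith
    · rintro ⟨h1, h2⟩ i
      have h1 := h1 i
      have h2 := h2 i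
      simp only [Pi.zero_apply] at h1
      rw [abs_le]
      simp only [N8.zz, zc]
      constructor <;> linarith
  rw [h4] at h3
  rw [← h3] at h2
  have hp : (0:ℝ) < s ^ n := by positivity
  change ∫ x in BoxE ρ, F x = s ^ n * ∫ y in QQ n, F (s • N8.zz y)
  rw [h2]
  field_simp

theorem hess_TT {s : ℝ} {U : EuclideanSpace ℝ (Fin n) → ℝ} {t C : ℝ} (hU : Pot U t C) :
    HessGe (fun y => U (TT s y)) (fun _ _ => t * s ^ 2) := by
  intro x _ v
  have hUT : ContDiff ℝ 2 (fun y => U (TT s y)) := hU.smooth.comp (contDiff_TT s)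
  have hU1 : Differentiable ℝ U := hU.smooth.differentiable (by norm_num)
  have hU2 : Differentiable ℝ (fderiv ℝ U) :=
    (hU.smooth.fderiv_right (m := 1) (by norm_num)).differentiable (by norm_num)
  rw [N7.second_dir hUT]
  set w : EuclideanSpace ℝ (Fin n) := s • N7.LP n v with hw
  have h1 : (fun y => fderiv ℝ (fun y => U (TT s y)) y v) = fun y => fderiv ℝ U (TT s y) w := by
    ext y
    have h := (hU1 (TT s y)).hasFDerivAt.comp y (hasFDerivAt_TT s y)
    rw [show (fun y => U (TT s y)) = U ∘ TT s from rfl, h.fderiv]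
    rfl
  rw [h1]
  have h2 : HasFDerivAt (fun y => fderiv ℝ U (TT s y) w)
      (((ContinuousLinearMap.apply ℝ ℝ w).comp (fderiv ℝ (fderiv ℝ U) (TT s x))).comp
        (s • N7.LP n)) x := by
    have h3 : HasFDerivAt (fun z => fderiv ℝ U z w)
        ((ContinuousLinearMap.apply ℝ ℝ w).comp (fderiv ℝ (fderiv ℝ U) (TT s x))) (TT s x) :=
      (ContinuousLinearMap.apply ℝ ℝ w).hasFDerivAt.comp (TT s x) (hU2 (TT s x)).hasFDerivAt
    exact h3.comp x (hasFDerivAt_TT s x)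
  rw [h2.fderiv]
  have h4 := hU.hess (TT s x) w
  have h5 : ‖w‖ ^ 2 = s ^ 2 * ∑ i, v i ^ 2 := by
    rw [EuclideanSpace.real_norm_sq_eq, Finset.mul_sum]
    refine Finset.sum_congr rfl fun i _ => ?_
    rw [hw]
    change (s * v i) ^ 2 = _
    ring
  rw [h5] at h4
  rw [← Finset.mul_sum]
  calc t * s ^ 2 * ∑ i, v i ^ 2 = t * (s ^ 2 * ∑ i, v i ^ 2) := by ring
    _ ≤ _ := h4

end B1

open B1 in
theorem box_solve {n : ℕ} {U h : EuclideanSpace ℝ (Fin n) → ℝ} {t C : ℝ} (hU : Pot U t C)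
    (hh : ContDiff ℝ 1 h) {ρ ε : ℝ} (hρ : 0 < ρ) (hε : 0 < ε) {c : ℝ}
    (hc : c * (∫ x in BoxE ρ, Real.exp (-U x)) = ∫ x in BoxE ρ, h x * Real.exp (-U x)) :
    ∃ u : EuclideanSpace ℝ (Fin n) → ℝ, ContDiff ℝ ∞ u ∧
      (∫ x in BoxE ρ, (LO (EuclideanSpace.basisFun (Fin n) ℝ) U u x + (h x - c)) ^ 2
        * Real.exp (-U x)) ≤ ε ∧
      (∫ x in BoxE ρ, ‖fderiv ℝ u x‖ ^ 2 * Real.exp (-U x)) ≤
        2 / t * ((∫ x in BoxE ρ, (h x - c) ^ 2 * Real.exp (-U x)) + ε) ∧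
      (∫ x in BoxE ρ, u x ^ 2 * Real.exp (-U x)) ≤
        2 / t ^ 2 * ((∫ x in BoxE ρ, (h x - c) ^ 2 * Real.exp (-U x)) + ε) := by
  set s : ℝ := ρ / (Real.pi / 2) with hs_def
  have hpi : 0 < Real.pi / 2 := by positivity
  have hs : 0 < s := by positivity
  have hsρ : s * (Real.pi / 2) = ρ := by rw [hs_def]; field_simp
  have ht := hU.pos
  have hUT : ContDiff ℝ 2 (fun y => U (TT s y)) := hU.smooth.comp (contDiff_TT s)
  have hUT1 : ContDiff ℝ 1 (fun y => U (TT s y)) := hUT.of_le (by norm_num)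
  have hUTc := hUT.continuous
  have hhT : ContDiff ℝ 1 (fun y => h (TT s y)) := hh.comp (contDiff_TT s)
  set Ut : (Fin n → ℝ) → ℝ := fun y => U (TT s y) with hUt
  set κ : ℝ := s ^ n with hκ
  have hκ0 : 0 < κ := by positivity
  have hts : 0 < t * s ^ 2 := by positivity
  -- the right hand side
  set g : (Fin n → ℝ) → ℝ := fun y => s ^ 2 * (h (TT s y) - c) with hg
  have hg1 : ContDiff ℝ 1 g := contDiff_const.mul (hhT.sub contDiff_const)
  have hint : ∀ F : EuclideanSpace ℝ (Fin n) → ℝ, ∫ x in BoxE ρ, F x * Real.exp (-U x) =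
      κ * ∫ y in QQ n, F (TT s y) * Real.exp (-Ut y) := fun F => integral_box hs hsρ _
  have hint0 : ∫ x in (BoxE ρ : Set (EuclideanSpace ℝ (Fin n))), Real.exp (-U x) =
      κ * ∫ y in QQ n, Real.exp (-Ut y) := integral_box hs hsρ _
  have hg0 : ∫ x in QQ n, g x * Real.exp (-Ut x) = 0 := by
    rw [hint0, hint h] at hc
    have h1 : ∫ x in QQ n, g x * Real.exp (-Ut x) = s ^ 2 *
        ((∫ y in QQ n, h (TT s y) * Real.exp (-Ut y)) - c * ∫ y in QQ n, Real.exp (-Ut y)) := by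
      rw [hg, N3.wint_smul, N3.wint_sub hUTc hhT.continuous continuous_const, integral_const_mul]
    rw [h1]
    have h2 : (∫ y in QQ n, h (TT s y) * Real.exp (-Ut y)) =
        c * ∫ y in QQ n, Real.exp (-Ut y) := by
      have h3 : κ * (∫ y in QQ n, h (TT s y) * Real.exp (-Ut y)) =
          κ * (c * ∫ y in QQ n, Real.exp (-Ut y)) := by
        rw [← hc]; ring
      exact mul_left_cancel₀ hκ0.ne' h3
    rw [h2]
    ring
  have hH : HessGe Ut (fun _ _ => t * s ^ 2) := hess_TT hU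
  have hε' : 0 < ε * s ^ 4 / κ := by positivity
  obtain ⟨N, v, hvV, hv0, hv⟩ := galerkin hUT hts hH hg1 hg0 hε'
  have hv3 : ContDiff ℝ 3 v := by exact_mod_cast VV_contDiff hvV 3
  have hv2 : ContDiff ℝ 2 v := by exact_mod_cast VV_contDiff hvV 2
  have hv1 : ContDiff ℝ 1 v := N3.VV_cd1 hvV
  have hvi : ContDiff ℝ ∞ v := contDiff_infty.2 fun m => VV_contDiff hvV m
  have hLc := N3.LL_cont hUT1 hv2
  -- the two energies
  set G := ∫ x in QQ n, gsq v x * Real.exp (-Ut x) with hG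
  set L0 := ∫ x in QQ n, (LL Ut v x) ^ 2 * Real.exp (-Ut x) with hL0
  set R0 := ∫ x in QQ n, (LL Ut v x + g x) ^ 2 * Real.exp (-Ut x) with hR0
  set H0 := ∫ x in QQ n, g x ^ 2 * Real.exp (-Ut x) with hH0
  set V0 := ∫ x in QQ n, v x ^ 2 * Real.exp (-Ut x) with hV0
  set H := ∫ x in BoxE ρ, (h x - c) ^ 2 * Real.exp (-U x) with hHd
  have hHH : H = κ * (s⁻¹ ^ 4 * H0) := by
    have e : ∫ y in QQ n, (h (TT s y) - c) ^ 2 * Real.exp (-Ut y) = s⁻¹ ^ 4 * H0 := by
      rw [hH0, ← N3.wint_smul]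
      refine integral_congr_ae (ae_of_all _ fun y => ?_)
      simp only [hg]
      field_simp
    rw [hHd, hint (fun x => (h x - c) ^ 2), e]
  have hGL : t * s ^ 2 * G ≤ L0 := by
    have h1 := N3.bochner_ge hUT hH hv3 (VV_neum hvV)
    have h2 : 0 ≤ ∫ x in QQ n, (∑ i, gsq (pd i v) x) * Real.exp (-Ut x) :=
      N3.wint_nonneg fun x => Finset.sum_nonneg fun i _ => N3.gsq_nonneg _ _
    linarith
  have hLR : L0 ≤ 2 * R0 + 2 * H0 := by
    have h1 : L0 ≤ ∫ x in QQ n, (2 * (LL Ut v x + g x) ^ 2 + 2 * g x ^ 2) * Real.exp (-Ut x) := by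
      refine N3.wint_mono hUTc (hLc.pow 2)
        ((((hLc.add hg1.continuous).pow 2).const_mul 2).add ((hg1.continuous.pow 2).const_mul 2))
        fun x _ => ?_
      nlinarith [sq_nonneg (LL Ut v x + 2 * g x)]
    rw [N3.wint_add (f := fun x => 2 * (LL Ut v x + g x) ^ 2) (g := fun x => 2 * g x ^ 2) hUTc
      (((hLc.add hg1.continuous).pow 2).const_mul 2) ((hg1.continuous.pow 2).const_mul 2),
      N3.wint_smul, N3.wint_smul] at h1
    exact h1
  have hGG : G ≤ s⁻¹ ^ 2 / t * (2 * R0 + 2 * H0) := by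
    have h1 : t * s ^ 2 * G ≤ 2 * R0 + 2 * H0 := hGL.trans hLR
    have h2 : G = s⁻¹ ^ 2 / t * (t * s ^ 2 * G) := by
      field_simp
    rw [h2]
    exact mul_le_mul_of_nonneg_left h1 (by positivity)
  have hVG : V0 ≤ s⁻¹ ^ 2 / t * G := by
    have h1 := boxPC_hess hUT hts hH v hv1
    rw [hv0] at h1
    have h2 : 0 < ∫ x in QQ n, Real.exp (-Ut x) := N3.wint_pos n hUTc
    have h3 : V0 * (∫ x in QQ n, Real.exp (-Ut x)) ≤
        (s⁻¹ ^ 2 / t * G) * ∫ x in QQ n, Real.exp (-Ut x) := by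
      have h4 : 1 / (t * s ^ 2) * (G * ∫ x in QQ n, Real.exp (-Ut x)) =
          (s⁻¹ ^ 2 / t * G) * ∫ x in QQ n, Real.exp (-Ut x) := by
        field_simp
      rw [← h4]
      linarith
    exact le_of_mul_le_mul_right h3 h2
  have hRε : κ * (s⁻¹ ^ 4 * R0) ≤ ε := by
    calc κ * (s⁻¹ ^ 4 * R0) ≤ κ * (s⁻¹ ^ 4 * (ε * s ^ 4 / κ)) := by gcongr
      _ = ε := by field_simp
  have hgrad : (∫ x in BoxE ρ, ‖fderiv ℝ (fun x => v (SS s x)) x‖ ^ 2 * Real.exp (-U x)) =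
      κ * (s⁻¹ ^ 2 * G) := by
    have e : ∫ y in QQ n, ‖fderiv ℝ (fun x => v (SS s x)) (TT s y)‖ ^ 2 * Real.exp (-Ut y) =
        s⁻¹ ^ 2 * G := by
      rw [hG, ← N3.wint_smul]
      refine integral_congr_ae (ae_of_all _ fun y => ?_)
      simp only
      rw [norm_SS hv1, SS_TT hs]
    rw [hint (fun x => ‖fderiv ℝ (fun x => v (SS s x)) x‖ ^ 2), e]
  have hgle : κ * (s⁻¹ ^ 2 * G) ≤ 2 / t * (H + ε) := by
    calc κ * (s⁻¹ ^ 2 * G) ≤ κ * (s⁻¹ ^ 2 * (s⁻¹ ^ 2 / t * (2 * R0 + 2 * H0))) := by gcongr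
      _ = 2 / t * (κ * (s⁻¹ ^ 4 * H0) + κ * (s⁻¹ ^ 4 * R0)) := by ring
      _ ≤ 2 / t * (κ * (s⁻¹ ^ 4 * H0) + ε) := by gcongr
      _ = 2 / t * (H + ε) := by rw [hHH]
  refine ⟨fun x => v (SS s x), hvi.comp (contDiff_SS s), ?_, ?_, ?_⟩
  · have e : ∫ y in QQ n, (LO (EuclideanSpace.basisFun (Fin n) ℝ) U (fun x => v (SS s x))
        (TT s y) + (h (TT s y) - c)) ^ 2 * Real.exp (-Ut y) = s⁻¹ ^ 4 * R0 := by
      rw [hR0, ← N3.wint_smul]
      refine integral_congr_ae (ae_of_all _ fun y => ?_)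
      simp only
      rw [LO_SS hs hU.smooth hv2, SS_TT hs, hg]
      field_simp
      rfl
    rw [hint (fun x => (LO (EuclideanSpace.basisFun (Fin n) ℝ) U (fun x => v (SS s x)) x +
      (h x - c)) ^ 2), e]
    exact hRε
  · rw [hgrad]
    exact hgle
  · rw [hint (fun x => (v (SS s x)) ^ 2)]
    simp only [SS_TT hs]
    calc κ * V0 ≤ κ * (s⁻¹ ^ 2 / t * G) := by gcongr
      _ = 1 / t * (κ * (s⁻¹ ^ 2 * G)) := by ring
      _ ≤ 1 / t * (2 / t * (H + ε)) := by gcongr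
      _ = 2 / t ^ 2 * (H + ε) := by field_simp

end Pool.Agent.H84.Sym
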